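import Mathlib
import Pool.Agent.WYL.Wvc
import Pool.Agent.WYL.Sdt

/-!
KDT: the general derivative test for the sums of `n ^ (i t)` (Weyl differencing down to the second
derivative test).
-/

set_option autoImplicit false

namespace Pool.Agent.KDT

open Finset Complex

/-- A tower of derivatives on the positive half line. -/
def Tower (D : ℕ → ℝ → ℝ) : Prop := ∀ j x, 0 < x → HasDerivAt (D j) (D (j + 1) x) x

/-- The tower of the differences. -/
def sh (h : ℕ) (D : ℕ → ℝ → ℝ) : ℕ → ℝ → ℝ := fun j x => D j (x + h) - D j x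

lemma Tower.sh {D : ℕ → ℝ → ℝ} (hD : Tower D) (h : ℕ) : Tower (sh h D) := by
  intro j x hx
  have h1 := (hD j (x + h) (by positivity)).comp_add_const x (h : ℝ)
  exact h1.sub (hD j x hx)

/-- Bounds for the derivative number `m` on an interval. -/
def Bnd (m : ℕ) (L U a b : ℝ) (D : ℕ → ℝ → ℝ) : Prop :=
  ∀ x, a ≤ x → x ≤ b → L ≤ D m x ∧ D m x ≤ U

lemma Bnd.sh {D : ℕ → ℝ → ℝ} (hD : Tower D) {m : ℕ} {L U a b : ℝ} (ha : 0 < a)
    (hB : Bnd (m + 1) L U a b D) {h : ℕ} (hh : 1 ≤ h) :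
    Bnd m (h * L) (h * U) a (b - h) (sh h D) := by
  intro x hx1 hx2
  have hh' : (1 : ℝ) ≤ h := by exact_mod_cast hh
  have hx0 : 0 < x := by linarith
  obtain ⟨c, hc, he⟩ := exists_hasDerivAt_eq_slope (D m) (D (m + 1)) (a := x) (b := x + h)
    (by linarith)
    (fun y hy => (hD m y (by linarith [hy.1])).continuousAt.continuousWithinAt)
    (fun y hy => hD m y (by linarith [hy.1]))
  have e : D m (x + h) - D m x = h * D (m + 1) c := by
    rw [he]
    have : x + (h : ℝ) - x = h := by ring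
    rw [this]
    field_simp
  have h2 := hB c (by linarith [hc.1]) (by linarith [hc.2])
  change h * L ≤ D m (x + h) - D m x ∧ D m (x + h) - D m x ≤ h * U
  rw [e]
  exact ⟨mul_le_mul_of_nonneg_left h2.1 (by linarith), mul_le_mul_of_nonneg_left h2.2 (by linarith)⟩

/-- The exponential of a phase. -/
noncomputable def ee (x : ℝ) : ℂ := Complex.exp (((2 * Real.pi * x : ℝ) : ℂ) * Complex.I)

lemma norm_ee (x : ℝ) : ‖ee x‖ = 1 := by
  unfold ee
  rw [Complex.norm_exp_ofReal_mul_I]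

lemma ee_mul_conj (x y : ℝ) : ee x * (starRingEnd ℂ) (ee y) = ee (x - y) := by
  unfold ee
  rw [← Complex.exp_conj, ← Complex.exp_add]
  congr 1
  simp only [map_mul, Complex.conj_ofReal, Complex.conj_I]
  push_cast
  ring

theorem weyl (q : ℕ) : ∀ η K A : ℝ, 0 < η → 1 ≤ K → 1 ≤ A → ∃ c C : ℝ, 0 < c ∧ 0 < C ∧
    ∀ (N : ℝ) (a b : ℕ) (D : ℕ → ℝ → ℝ) (lam : ℝ), 1 ≤ N → 1 ≤ a → a ≤ b → (b : ℝ) - a ≤ N →
      Tower D → 0 < lam → N ^ (-2 + η) ≤ K * lam → lam ≤ K * N ^ (-η) →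
      Bnd (q + 2) lam (A * lam) a b D → ‖∑ n ∈ Ico a b, ee (D 0 n)‖ ≤ C * N ^ (1 - c) := by
  induction q with
  | zero =>
    intro η K A hη hK hA
    obtain ⟨C, hC, hs⟩ := WYL.sdt
    refine ⟨η / 2, C * A * (2 * √K), by positivity, by positivity, ?_⟩
    intro N a b D lam hN ha hab hba hD hlam hl1 hl2 hB
    have hN0 : 0 < N := by linarith
    have ha' : (1 : ℝ) ≤ a := by exact_mod_cast ha
    have h1 := hs (fun n => D 0 n) a b lam A hab hlam hA (by
      intro n hn1 hn2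
      have b1 := Bnd.sh hD (m := 1) (by linarith) hB (h := 1) le_rfl
      have b2 := Bnd.sh (hD.sh 1) (m := 0) (by linarith) b1 (h := 1) le_rfl
      have hn2' : ((n : ℝ)) + 2 ≤ b := by exact_mod_cast hn2.le
      have b3 := b2 (n : ℝ) (by exact_mod_cast hn1) (by push_cast; linarith)
      unfold KDT.sh at b3
      push_cast at b3 ⊢
      have e1 : (n : ℝ) + 1 + 1 = n + 2 := by ring
      rw [e1] at b3
      constructor
      · linarith [b3.1]
      · linarith [b3.2])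
    refine h1.trans ?_
    have hsl0 : 0 < √lam := Real.sqrt_pos.2 hlam
    have hsK : 1 ≤ √K := by rw [Real.one_le_sqrt]; exact hK
    have e1 : √lam ≤ √K * N ^ (-(η / 2)) := by
      rw [Real.sqrt_le_left (by positivity), mul_pow, Real.sq_sqrt (by linarith),
        ← Real.rpow_natCast (N ^ (-(η / 2))) 2, ← Real.rpow_mul hN0.le]
      convert hl2 using 2
      congr 1
      push_cast; ring
    have e2 : (√lam)⁻¹ ≤ √K * N ^ (1 - η / 2) := by
      rw [inv_le_comm₀ hsl0 (by positivity)]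
      apply Real.le_sqrt_of_sq_le
      rw [inv_pow, mul_pow, Real.sq_sqrt (by linarith), ← Real.rpow_natCast (N ^ (1 - η / 2)) 2,
        ← Real.rpow_mul hN0.le, inv_le_comm₀ (by positivity) hlam]
      have h3 : N ^ (-2 + η) * N ^ ((1 - η / 2) * ((2 : ℕ) : ℝ)) = 1 := by
        rw [← Real.rpow_add hN0]
        have : -2 + η + (1 - η / 2) * ((2 : ℕ) : ℝ) = 0 := by push_cast; ring
        rw [this, Real.rpow_zero]
      have h4 : 0 < N ^ ((1 - η / 2) * ((2 : ℕ) : ℝ)) := Real.rpow_pos_of_pos hN0 _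
      rw [inv_le_iff_one_le_mul₀ hlam]
      calc (1 : ℝ) = N ^ (-2 + η) * N ^ ((1 - η / 2) * ((2 : ℕ) : ℝ)) := h3.symm
        _ ≤ (K * lam) * N ^ ((1 - η / 2) * ((2 : ℕ) : ℝ)) :=
            mul_le_mul_of_nonneg_right hl1 h4.le
        _ = _ := by ring
    have e3 : ((b : ℝ) - a) * √lam ≤ √K * N ^ (1 - η / 2) := by
      calc ((b : ℝ) - a) * √lam ≤ N * (√K * N ^ (-(η / 2))) :=
            mul_le_mul hba e1 hsl0.le hN0.le
        _ = √K * (N ^ (1 : ℝ) * N ^ (-(η / 2))) := by rw [Real.rpow_one]; ring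
        _ = √K * N ^ (1 - η / 2) := by rw [← Real.rpow_add hN0]; congr 2
    calc C * A * (((b : ℝ) - a) * √lam + (√lam)⁻¹)
        ≤ C * A * (√K * N ^ (1 - η / 2) + √K * N ^ (1 - η / 2)) := by gcongr
      _ = C * A * (2 * √K) * N ^ (1 - η / 2) := by ring
  | succ q ih =>
    intro η K A hη hK hA
    obtain ⟨c, C, hc, hC, hq⟩ := ih (η / 2) K A (by positivity) hK hA
    obtain ⟨κ, hκ⟩ : ∃ κ, κ = min η 1 / 2 := ⟨_, rfl⟩
    have hκ0 : 0 < κ := by rw [hκ]; positivity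
    have hκη : κ ≤ η / 2 := by
      rw [hκ]
      have := min_le_left η 1
      linarith
    have hκ1 : κ ≤ 1 / 2 := by
      rw [hκ]
      have := min_le_right η 1
      linarith
    obtain ⟨m, hm⟩ : ∃ m, m = min κ (min c 1) := ⟨_, rfl⟩
    have hm0 : 0 < m := by rw [hm]; positivity
    have hmκ : m ≤ κ := by rw [hm]; exact min_le_left _ _
    have hmc : m ≤ c := by rw [hm]; exact (min_le_right _ _).trans (min_le_left _ _)
    refine ⟨m / 2, √(4 + 4 * C), by positivity, by positivity, ?_⟩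
    intro N a b D lam hN ha hab hba hD hlam hl1 hl2 hB
    have hN0 : 0 < N := by linarith
    have ha' : (1 : ℝ) ≤ a := by exact_mod_cast ha
    have hab' : (a : ℝ) ≤ b := by exact_mod_cast hab
    obtain ⟨H, hH⟩ : ∃ H, H = ⌊N ^ κ⌋₊ := ⟨_, rfl⟩
    have hNκ : 1 ≤ N ^ κ := Real.one_le_rpow hN hκ0.le
    have hH1 : 1 ≤ H := by
      rw [hH]
      exact Nat.le_floor (by exact_mod_cast hNκ)
    have hHle : (H : ℝ) ≤ N ^ κ := by rw [hH]; exact Nat.floor_le (by positivity)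
    have hHge : N ^ κ ≤ 2 * H := by
      have h1 : N ^ κ < H + 1 := by rw [hH]; exact Nat.lt_floor_add_one _
      have h2 : (1 : ℝ) ≤ H := by exact_mod_cast hH1
      linarith
    have hH0 : (0 : ℝ) < H := by exact_mod_cast hH1
    have hfin : ∀ x : ℝ, 0 ≤ x → x ^ 2 ≤ (4 + 4 * C) * N ^ (2 - m) →
        x ≤ √(4 + 4 * C) * N ^ (1 - m / 2) := by
      intro x hx h
      have h2 : N ^ (2 - m) = (N ^ (1 - m / 2)) ^ 2 := by
        rw [← Real.rpow_natCast (N ^ (1 - m / 2)) 2, ← Real.rpow_mul hN0.le]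
        congr 1
        push_cast; ring
      rw [h2] at h
      have h3 : (√(4 + 4 * C) * N ^ (1 - m / 2)) ^ 2 = (4 + 4 * C) * (N ^ (1 - m / 2)) ^ 2 := by
        rw [mul_pow, Real.sq_sqrt (by positivity)]
      rw [← h3] at h
      exact (pow_le_pow_iff_left₀ hx (by positivity) (by norm_num)).1 h
    apply hfin _ (norm_nonneg _)
    by_cases hHb : a + H ≤ b
    · have h1 := WYL.wvc (fun n => ee (D 0 n)) (fun n => (norm_ee _).le) a b H hH1 hHb
      refine h1.trans ?_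
      have h2 : ∀ h ∈ Ico 1 H, ‖∑ n ∈ Ico a (b - h),
          ee (D 0 ((n + h : ℕ) : ℝ)) * (starRingEnd ℂ) (ee (D 0 n))‖ ≤ C * N ^ (1 - c) := by
        intro h hh
        rw [Finset.mem_Ico] at hh
        have hhb : a + h ≤ b := by omega
        have hcast : ((b - h : ℕ) : ℝ) = (b : ℝ) - h := by
          rw [Nat.cast_sub (by omega)]
        have hh1 : (1 : ℝ) ≤ h := by exact_mod_cast hh.1
        have hhH : (h : ℝ) ≤ H := by exact_mod_cast hh.2.le
        have e : ∀ n ∈ Ico a (b - h), ee (D 0 ((n + h : ℕ) : ℝ)) * (starRingEnd ℂ) (ee (D 0 n)) =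
            ee (KDT.sh h D 0 n) := by
          intro n _
          rw [ee_mul_conj]
          unfold KDT.sh
          push_cast
          rfl
        rw [Finset.sum_congr rfl e]
        have hb1 := Bnd.sh hD (m := q + 2) (by linarith) hB hh.1
        refine hq N a (b - h) (KDT.sh h D) (h * lam) hN ha (by omega) ?_ (hD.sh h) (by positivity)
          ?_ ?_ ?_
        · rw [hcast]; linarith
        · calc N ^ (-2 + η / 2) ≤ N ^ (-2 + η) :=
                Real.rpow_le_rpow_of_exponent_le hN (by linarith)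
            _ ≤ K * lam := hl1
            _ ≤ K * (h * lam) := by
                have : lam ≤ h * lam := by nlinarith
                exact mul_le_mul_of_nonneg_left this (by linarith)
        · calc (h : ℝ) * lam ≤ N ^ κ * (K * N ^ (-η)) :=
                mul_le_mul (hhH.trans hHle) hl2 hlam.le (by positivity)
            _ = K * (N ^ κ * N ^ (-η)) := by ring
            _ = K * N ^ (κ + -η) := by rw [← Real.rpow_add hN0]
            _ ≤ K * N ^ (-(η / 2)) := by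
                apply mul_le_mul_of_nonneg_left _ (by linarith)
                exact Real.rpow_le_rpow_of_exponent_le hN (by linarith)
        · rw [hcast]
          intro x hx1 hx2
          have h3 := hb1 x hx1 hx2
          exact ⟨h3.1, h3.2.trans (le_of_eq (by ring))⟩
      have h3 := Finset.sum_le_sum h2
      rw [Finset.sum_const, nsmul_eq_mul, Nat.card_Ico] at h3
      have h4 : ((H - 1 : ℕ) : ℝ) * (C * N ^ (1 - c)) ≤ H * (C * N ^ (1 - c)) := by
        apply mul_le_mul_of_nonneg_right _ (by positivity)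
        exact_mod_cast Nat.sub_le H 1
      have hba0 : 0 ≤ (b : ℝ) - a := by linarith
      have t1 : 2 * ((b : ℝ) - a) ^ 2 / H ≤ 4 * N ^ (2 - m) := by
        rw [div_le_iff₀ hH0]
        have h5 : ((b : ℝ) - a) ^ 2 ≤ N ^ 2 := pow_le_pow_left₀ hba0 hba 2
        have h6 : N ^ 2 ≤ N ^ (2 - m) * N ^ κ := by
          rw [← Real.rpow_add hN0, ← Real.rpow_natCast N 2]
          exact Real.rpow_le_rpow_of_exponent_le hN (by push_cast; linarith)
        have h7 : 0 ≤ N ^ (2 - m) := by positivity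
        nlinarith [mul_le_mul_of_nonneg_left hHge h7]
      have t2 : 4 * ((b : ℝ) - a) / H * ∑ h ∈ Ico 1 H, ‖∑ n ∈ Ico a (b - h),
          ee (D 0 ((n + h : ℕ) : ℝ)) * (starRingEnd ℂ) (ee (D 0 n))‖ ≤ 4 * C * N ^ (2 - m) := by
        have h5 := h3.trans h4
        calc 4 * ((b : ℝ) - a) / H * ∑ h ∈ Ico 1 H, ‖∑ n ∈ Ico a (b - h),
              ee (D 0 ((n + h : ℕ) : ℝ)) * (starRingEnd ℂ) (ee (D 0 n))‖
            ≤ 4 * ((b : ℝ) - a) / H * (H * (C * N ^ (1 - c))) :=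
              mul_le_mul_of_nonneg_left h5 (by positivity)
          _ = 4 * ((b : ℝ) - a) * (C * N ^ (1 - c)) := by field_simp
          _ ≤ 4 * N * (C * N ^ (1 - c)) := by gcongr
          _ = 4 * C * (N ^ (1 : ℝ) * N ^ (1 - c)) := by rw [Real.rpow_one]; ring
          _ = 4 * C * N ^ (1 + (1 - c)) := by rw [← Real.rpow_add hN0]
          _ ≤ 4 * C * N ^ (2 - m) := by
              apply mul_le_mul_of_nonneg_left _ (by positivity)
              exact Real.rpow_le_rpow_of_exponent_le hN (by linarith)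
      calc _ ≤ 4 * N ^ (2 - m) + 4 * C * N ^ (2 - m) := add_le_add t1 t2
        _ = _ := by ring
    · have h1 : ‖∑ n ∈ Ico a b, ee (D 0 n)‖ ≤ H := by
        refine (norm_sum_le _ _).trans ?_
        simp_rw [norm_ee]
        rw [Finset.sum_const, nsmul_eq_mul, mul_one, Nat.card_Ico]
        exact_mod_cast (by omega : b - a ≤ H)
      have h2 : (H : ℝ) ≤ N ^ ((1 : ℝ) / 2) :=
        hHle.trans (Real.rpow_le_rpow_of_exponent_le hN hκ1)
      have h3 := pow_le_pow_left₀ (norm_nonneg _) (h1.trans h2) 2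
      refine h3.trans ?_
      have h4 : (N ^ ((1 : ℝ) / 2)) ^ 2 = N ^ (1 : ℝ) := by
        rw [← Real.rpow_natCast (N ^ ((1 : ℝ) / 2)) 2, ← Real.rpow_mul hN0.le]
        congr 1
        norm_num
      rw [h4]
      have h5 : N ^ (1 : ℝ) ≤ N ^ (2 - m) :=
        Real.rpow_le_rpow_of_exponent_le hN (by linarith)
      have h6 : 0 ≤ N ^ (2 - m) := by positivity
      have h7 := mul_nonneg hC.le h6
      calc N ^ (1 : ℝ) ≤ N ^ (2 - m) := h5
        _ = 1 * N ^ (2 - m) := (one_mul _).symm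
        _ ≤ (4 + 4 * C) * N ^ (2 - m) := mul_le_mul_of_nonneg_right (by linarith) h6

/-- The derivatives of `c log x`. -/
noncomputable def lg (c : ℝ) : ℕ → ℝ → ℝ
  | 0, x => c * Real.log x
  | j + 1, x => c * ((-1) ^ j * (j.factorial : ℝ)) * (x ^ (j + 1))⁻¹

lemma lg_tower (c : ℝ) : Tower (lg c) := by
  intro j x hx
  cases j with
  | zero =>
    have h := (Real.hasDerivAt_log hx.ne').const_mul c
    have e : lg c (0 + 1) x = c * x⁻¹ := by
      change c * ((-1) ^ 0 * ((0 : ℕ).factorial : ℝ)) * (x ^ (0 + 1))⁻¹ = c * x⁻¹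
      simp
    rw [e]
    exact h
  | succ j =>
    have h1 : HasDerivAt (fun y : ℝ => y ^ (j + 1)) (((j + 1 : ℕ) : ℝ) * x ^ j) x := by
      simpa using hasDerivAt_pow (j + 1) x
    have h2 := (h1.inv (by positivity)).const_mul (c * ((-1) ^ j * (j.factorial : ℝ)))
    have e : lg c (j + 1 + 1) x = c * ((-1) ^ j * (j.factorial : ℝ)) *
        (-(((j + 1 : ℕ) : ℝ) * x ^ j) / (x ^ (j + 1)) ^ 2) := by
      change c * ((-1) ^ (j + 1) * ((j + 1).factorial : ℝ)) * (x ^ (j + 1 + 1))⁻¹ = _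
      rw [Nat.factorial_succ]
      push_cast
      field_simp
      ring
    rw [e]
    exact h2

lemma lg_bnd (q : ℕ) {t N : ℝ} (ht : 0 < t) (hN : 1 ≤ N) :
    Bnd (q + 2) (((q + 1).factorial : ℝ) / (2 * Real.pi * 2 ^ (q + 2)) * (t / N ^ (q + 2)))
      (2 ^ (q + 2) * (((q + 1).factorial : ℝ) / (2 * Real.pi * 2 ^ (q + 2)) *
        (t / N ^ (q + 2)))) N (2 * N) (lg ((-1) ^ (q + 1) * (t / (2 * Real.pi)))) := by
  intro x hx1 hx2
  have hN0 : 0 < N := by linarith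
  have hx0 : 0 < x := by linarith
  have hpi := Real.pi_pos
  have e : lg ((-1) ^ (q + 1) * (t / (2 * Real.pi))) (q + 2) x =
      ((q + 1).factorial : ℝ) * (t / (2 * Real.pi)) * (x ^ (q + 2))⁻¹ := by
    simp only [lg]
    have h1 : ((-1 : ℝ) ^ (q + 1)) * ((-1) ^ (q + 1)) = 1 := by
      rw [← mul_pow]; norm_num
    calc (-1 : ℝ) ^ (q + 1) * (t / (2 * Real.pi)) * ((-1) ^ (q + 1) * ((q + 1).factorial : ℝ)) *
          (x ^ (q + 1 + 1))⁻¹
        = ((-1 : ℝ) ^ (q + 1) * (-1) ^ (q + 1)) * (((q + 1).factorial : ℝ) *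
            (t / (2 * Real.pi)) * (x ^ (q + 2))⁻¹) := by ring
      _ = _ := by rw [h1, one_mul]
  rw [e]
  have hf : (0 : ℝ) < (q + 1).factorial := by positivity
  constructor
  · have h1 : ((2 * N) ^ (q + 2))⁻¹ ≤ (x ^ (q + 2))⁻¹ := by
      apply inv_anti₀ (by positivity)
      exact pow_le_pow_left₀ hx0.le hx2 _
    calc ((q + 1).factorial : ℝ) / (2 * Real.pi * 2 ^ (q + 2)) * (t / N ^ (q + 2))
        = ((q + 1).factorial : ℝ) * (t / (2 * Real.pi)) * ((2 * N) ^ (q + 2))⁻¹ := by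
          rw [mul_pow]; field_simp
      _ ≤ _ := mul_le_mul_of_nonneg_left h1 (by positivity)
  · have h1 : (x ^ (q + 2))⁻¹ ≤ (N ^ (q + 2))⁻¹ := by
      apply inv_anti₀ (by positivity)
      exact pow_le_pow_left₀ hN0.le hx1 _
    calc ((q + 1).factorial : ℝ) * (t / (2 * Real.pi)) * (x ^ (q + 2))⁻¹
        ≤ ((q + 1).factorial : ℝ) * (t / (2 * Real.pi)) * (N ^ (q + 2))⁻¹ :=
          mul_le_mul_of_nonneg_left h1 (by positivity)
      _ = _ := by field_simp

/-- The sums of `n ^ (i t)`. -/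
noncomputable def SS (t : ℝ) (N M : ℕ) : ℝ :=
  ‖∑ n ∈ Ico N (N + M), Complex.exp (((t * Real.log n : ℝ) : ℂ) * Complex.I)‖

lemma SS_neg (t : ℝ) (N M : ℕ) : SS (-t) N M = SS t N M := by
  unfold SS
  rw [← Complex.norm_conj, map_sum]
  congr 1
  refine Finset.sum_congr rfl fun n _ => ?_
  rw [← Complex.exp_conj]
  congr 1
  simp only [map_mul, Complex.conj_ofReal, Complex.conj_I]
  push_cast
  ring

lemma SS_abs (t : ℝ) (N M : ℕ) : SS |t| N M = SS t N M := by
  rcases abs_choice t with h | h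
  · rw [h]
  · rw [h, SS_neg]

/-- One range of `t`. -/
lemma range_one (q : ℕ) : ∃ c C : ℝ, 0 < c ∧ 0 < C ∧ ∀ (t : ℝ) (N M : ℕ), 1 ≤ N → M ≤ N →
    (N : ℝ) ^ ((q : ℝ) + 1 / 2) ≤ |t| → |t| ≤ (N : ℝ) ^ ((q : ℝ) + 3 / 2) →
    SS t N M ≤ C * (N : ℝ) ^ (1 - c) := by
  obtain ⟨k0, hk0⟩ : ∃ k0 : ℝ, k0 = ((q + 1).factorial : ℝ) / (2 * Real.pi * 2 ^ (q + 2)) :=
    ⟨_, rfl⟩
  have hk0p : 0 < k0 := by rw [hk0]; positivity
  obtain ⟨c, C, hc, hC, hw⟩ := weyl q (1 / 2) (max 1 (max k0 k0⁻¹)) (2 ^ (q + 2)) (by norm_num)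
    (le_max_left _ _) (one_le_pow₀ (by norm_num))
  refine ⟨c, C, hc, hC, ?_⟩
  intro t N M hN hMN ht1 ht2
  have hN1 : (1 : ℝ) ≤ N := by exact_mod_cast hN
  have hN0 : (0 : ℝ) < N := by linarith
  have ht0 : 0 < |t| := lt_of_lt_of_le (by positivity) ht1
  obtain ⟨s, hs⟩ : ∃ s : ℝ, s = (-1) ^ (q + 1) * |t| := ⟨_, rfl⟩
  have hs1 : SS s N M = SS t N M := by
    rw [hs]
    rcases neg_one_pow_eq_or ℝ (q + 1) with h | h
    · rw [h, one_mul, SS_abs]
    · rw [h, neg_one_mul, SS_neg, SS_abs]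
  rw [← hs1]
  obtain ⟨lam, hlam⟩ : ∃ lam : ℝ, lam = k0 * (|t| / (N : ℝ) ^ (q + 2)) := ⟨_, rfl⟩
  have hlam0 : 0 < lam := by rw [hlam]; positivity
  have hK1 : k0 ≤ max 1 (max k0 k0⁻¹) := (le_max_left _ _).trans (le_max_right _ _)
  have hK2 : k0⁻¹ ≤ max 1 (max k0 k0⁻¹) := (le_max_right _ _).trans (le_max_right _ _)
  have hp1 : (N : ℝ) ^ ((q : ℝ) + 1 / 2) / (N : ℝ) ^ (q + 2) = (N : ℝ) ^ (-2 + (1 : ℝ) / 2) := by
    rw [← Real.rpow_natCast (N : ℝ) (q + 2), ← Real.rpow_sub hN0]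
    congr 1
    push_cast; ring
  have hp2 : (N : ℝ) ^ ((q : ℝ) + 3 / 2) / (N : ℝ) ^ (q + 2) = (N : ℝ) ^ (-((1 : ℝ) / 2)) := by
    rw [← Real.rpow_natCast (N : ℝ) (q + 2), ← Real.rpow_sub hN0]
    congr 1
    push_cast; ring
  have hr1 : (N : ℝ) ^ (-2 + (1 : ℝ) / 2) ≤ |t| / (N : ℝ) ^ (q + 2) := by
    rw [← hp1]
    exact div_le_div_of_nonneg_right ht1 (by positivity)
  have hr2 : |t| / (N : ℝ) ^ (q + 2) ≤ (N : ℝ) ^ (-((1 : ℝ) / 2)) := by
    rw [← hp2]
    exact div_le_div_of_nonneg_right ht2 (by positivity)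
  have hB := lg_bnd q ht0 hN1
  rw [← hk0, ← hlam] at hB
  have h := hw N N (N + M) (lg ((-1) ^ (q + 1) * (|t| / (2 * Real.pi)))) lam hN1 hN (by omega)
    (by push_cast; have : (M : ℝ) ≤ N := by exact_mod_cast hMN
        linarith) (lg_tower _) hlam0
    (by
      calc (N : ℝ) ^ (-2 + (1 : ℝ) / 2) ≤ |t| / (N : ℝ) ^ (q + 2) := hr1
        _ = k0⁻¹ * lam := by rw [hlam]; field_simp
        _ ≤ _ := mul_le_mul_of_nonneg_right hK2 hlam0.le)
    (by
      calc lam = k0 * (|t| / (N : ℝ) ^ (q + 2)) := hlam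
        _ ≤ k0 * (N : ℝ) ^ (-((1 : ℝ) / 2)) := mul_le_mul_of_nonneg_left hr2 hk0p.le
        _ ≤ _ := mul_le_mul_of_nonneg_right hK1 (by positivity))
    (by
      intro x hx1 hx2
      refine hB x hx1 (hx2.trans ?_)
      push_cast
      have : (M : ℝ) ≤ N := by exact_mod_cast hMN
      linarith)
  refine le_trans (le_of_eq ?_) h
  unfold SS
  congr 1
  refine Finset.sum_congr rfl fun n _ => ?_
  unfold ee
  simp only [lg]
  congr 2
  rw [hs]
  have hpi := Real.pi_pos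
  push_cast
  field_simp

theorem kdt (k : ℕ) : ∃ c C : ℝ, 0 < c ∧ 0 < C ∧ ∀ (t : ℝ) (N M : ℕ), 1 ≤ N → M ≤ N →
    (N : ℝ) ^ (1 / 2 : ℝ) ≤ |t| → |t| ≤ (N : ℝ) ^ k →
    ‖∑ n ∈ Ico N (N + M), Complex.exp (((t * Real.log n : ℝ) : ℂ) * Complex.I)‖ ≤
      C * (N : ℝ) ^ (1 - c) := by
  have key : ∀ k : ℕ, ∃ c C : ℝ, 0 < c ∧ 0 < C ∧ ∀ (t : ℝ) (N M : ℕ), 1 ≤ N → M ≤ N →
      (N : ℝ) ^ (1 / 2 : ℝ) ≤ |t| → |t| ≤ (N : ℝ) ^ ((k : ℝ) + 1 / 2) →
      SS t N M ≤ C * (N : ℝ) ^ (1 - c) := by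
    intro k
    induction k with
    | zero =>
      obtain ⟨c, C, hc, hC, h⟩ := range_one 0
      refine ⟨c, C, hc, hC, fun t N M hN hM h1 h2 => h t N M hN hM ?_ ?_⟩
      · simpa using h1
      · refine h2.trans ?_
        have hN1 : (1 : ℝ) ≤ N := by exact_mod_cast hN
        exact Real.rpow_le_rpow_of_exponent_le hN1 (by norm_num)
    | succ k ih =>
      obtain ⟨c1, C1, hc1, hC1, h1⟩ := ih
      obtain ⟨c2, C2, hc2, hC2, h2⟩ := range_one k
      refine ⟨min c1 c2, max C1 C2, lt_min hc1 hc2, lt_max_of_lt_left hC1, ?_⟩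
      intro t N M hN hM ht1 ht2
      have hN1 : (1 : ℝ) ≤ N := by exact_mod_cast hN
      rcases le_total |t| ((N : ℝ) ^ ((k : ℝ) + 1 / 2)) with h | h
      · refine (h1 t N M hN hM ht1 h).trans ?_
        refine mul_le_mul (le_max_left _ _) ?_ (by positivity) (by positivity)
        exact Real.rpow_le_rpow_of_exponent_le hN1 (by linarith [min_le_left c1 c2])
      · refine (h2 t N M hN hM h ?_).trans ?_
        · refine ht2.trans (le_of_eq ?_)
          congr 1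
          push_cast; ring
        · refine mul_le_mul (le_max_right _ _) ?_ (by positivity) (by positivity)
          exact Real.rpow_le_rpow_of_exponent_le hN1 (by linarith [min_le_right c1 c2])
  obtain ⟨c, C, hc, hC, h⟩ := key k
  refine ⟨c, C, hc, hC, fun t N M hN hM h1 h2 => h t N M hN hM h1 ?_⟩
  refine h2.trans ?_
  have hN1 : (1 : ℝ) ≤ N := by exact_mod_cast hN
  rw [← Real.rpow_natCast]
  exact Real.rpow_le_rpow_of_exponent_le hN1 (by linarith)

end Pool.Agent.KDT
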